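import Pool.Agent.U398.MV.Stm6
import Pool.Agent.U688.MV4.MMa

/-!
# Project MV6: the variance `Vh` at comparable heights, and its size
-/

set_option autoImplicit false

namespace Pool.Agent.U388.MV6

open MeasureTheory Filter Topology Set Pool.Agent.U398.MV

/-- the prime sum of `S_PRS` -/
noncomputable def PP (x s : ℝ) : ℝ :=
  ∑ p ∈ (Finset.Icc 1 ⌊x⌋₊).filter Nat.Prime, Real.cos (s * Real.log p) / p

/-- the logarithm of zeta in `S_PRS` -/
noncomputable def ZZ (x s : ℝ) : ℝ :=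
  Real.log ‖riemannZeta (((1 + 1 / Real.log x : ℝ) : ℂ) + (s : ℂ) * Complex.I)‖

theorem ZZ_neg (x s : ℝ) : ZZ x (-s) = ZZ x s := by
  unfold ZZ
  congr 1
  have h : (((1 + 1 / Real.log x : ℝ) : ℂ) + ((-s : ℝ) : ℂ) * Complex.I) =
      (starRingEnd ℂ) (((1 + 1 / Real.log x : ℝ) : ℂ) + (s : ℂ) * Complex.I) := by
    apply Complex.ext <;> simp
  rw [h, riemannZeta_conj, Complex.norm_conj]

theorem ZZ_abs (x s : ℝ) : ZZ x (abs s) = ZZ x s := by
  rcases abs_choice s with h | h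
  · rw [h]
  · rw [h, ZZ_neg]

theorem PP_cmp {x y s : ℝ} (hx : 1 ≤ x) (hxy : x ≤ y) (hy : y ≤ 4 * x) :
    |PP y s - PP x s| ≤ 4 := by
  have hx0 : 0 < x := by linarith
  have hsub : (Finset.Icc 1 ⌊x⌋₊).filter Nat.Prime ⊆ (Finset.Icc 1 ⌊y⌋₊).filter Nat.Prime :=
    Finset.filter_subset_filter _ (Finset.Icc_subset_Icc le_rfl (Nat.floor_mono hxy))
  unfold PP
  rw [← Finset.sum_sdiff hsub, add_sub_cancel_right]
  refine (Finset.abs_sum_le_sum_abs _ _).trans ?_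
  have hterm : ∀ p ∈ (Finset.Icc 1 ⌊y⌋₊).filter Nat.Prime \ (Finset.Icc 1 ⌊x⌋₊).filter Nat.Prime,
      |Real.cos (s * Real.log p) / p| ≤ 1 / x := by
    intro p hp
    rw [Finset.mem_sdiff, Finset.mem_filter, Finset.mem_filter, Finset.mem_Icc,
      Finset.mem_Icc] at hp
    have h1 : ⌊x⌋₊ < p := by
      by_contra h
      exact hp.2 ⟨⟨hp.1.1.1, not_lt.1 h⟩, hp.1.2⟩
    have h2 : x < p := (Nat.floor_lt hx0.le).1 h1
    have hp0 : (0 : ℝ) < p := hx0.trans h2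
    rw [abs_div, abs_of_pos hp0]
    calc |Real.cos (s * Real.log p)| / p ≤ 1 / p := by
          gcongr
          exact Real.abs_cos_le_one _
      _ ≤ 1 / x := by gcongr
  refine (Finset.sum_le_card_nsmul _ _ _ hterm).trans ?_
  rw [nsmul_eq_mul]
  have hcard : ((((Finset.Icc 1 ⌊y⌋₊).filter Nat.Prime \
      (Finset.Icc 1 ⌊x⌋₊).filter Nat.Prime).card : ℕ) : ℝ) ≤ y := by
    have h1 : ((Finset.Icc 1 ⌊y⌋₊).filter Nat.Prime \
      (Finset.Icc 1 ⌊x⌋₊).filter Nat.Prime).card ≤ ⌊y⌋₊ := by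
      refine (Finset.card_le_card Finset.sdiff_subset).trans ?_
      refine (Finset.card_filter_le _ _).trans ?_
      rw [Nat.card_Icc]
      omega
    calc _ ≤ ((⌊y⌋₊ : ℕ) : ℝ) := by exact_mod_cast h1
      _ ≤ y := Nat.floor_le (by linarith)
  calc _ ≤ y * (1 / x) := by gcongr
    _ ≤ (4 * x) * (1 / x) := by gcongr
    _ = 4 := by field_simp

theorem ZZ_cmp {C : ℝ} (hC : ∀ x : ℝ, 3 ≤ x → ∀ s : ℝ, 0 ≤ s → |PP x s - ZZ x s| ≤ C)
    {T T' : ℝ} (hT : 10 ≤ T) (hT' : 10 ≤ T') (h1 : T / 2 ≤ T') (h2 : T' ≤ 4 * T) (s : ℝ) :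
    |ZZ T' s - ZZ T s| ≤ 2 * C + 4 := by
  rw [← ZZ_abs T', ← ZZ_abs T]
  have a1 := abs_le.1 (hC T (by linarith) (abs s) (abs_nonneg s))
  have a2 := abs_le.1 (hC T' (by linarith) (abs s) (abs_nonneg s))
  have a3 : abs (PP T' (abs s) - PP T (abs s)) ≤ 4 := by
    rcases le_total T T' with h | h
    · exact PP_cmp (by linarith) h h2
    · rw [abs_sub_comm]
      exact PP_cmp (by linarith) h (by linarith)
  have a4 := abs_le.1 a3
  rw [abs_le]
  constructor
  · linarith [a1.1, a1.2, a2.1, a2.2, a4.1, a4.2]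
  · linarith [a1.1, a1.2, a2.1, a2.2, a4.1, a4.2]

theorem PP_abs (x s : ℝ) : |PP x s| ≤ PP x 0 := by
  unfold PP
  refine (Finset.abs_sum_le_sum_abs _ _).trans ?_
  refine Finset.sum_le_sum fun p _ => ?_
  have hp : |(p : ℝ)| = p := abs_of_nonneg (Nat.cast_nonneg p)
  rw [zero_mul, Real.cos_zero, abs_div, hp]
  gcongr
  exact Real.abs_cos_le_one _

theorem fac_le (z : ℝ) : |1 / (2 * Real.pi ^ 2) * z| ≤ |z| := by
  rw [abs_mul]
  have h5 : |1 / (2 * Real.pi ^ 2)| ≤ 1 := by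
    rw [abs_of_pos (by positivity), div_le_one (by positivity)]
    nlinarith [Real.pi_gt_three]
  calc _ ≤ 1 * |z| := mul_le_mul_of_nonneg_right h5 (abs_nonneg _)
    _ = |z| := one_mul _

/-- the variance at comparable heights -/
theorem vh_cmp (hP : S_PRS) : ∃ C : ℝ, 0 < C ∧ ∀ T T' : ℝ, 10 ≤ T → 10 ≤ T' → T / 2 ≤ T' →
    T' ≤ 4 * T → ∀ (m : ℕ) (c x : Fin m → ℝ), (∑ i, |c i|) ≤ 1 →
    |Vh T' c x - Vh T c x| ≤ C := by
  obtain ⟨C, hC0, hC⟩ := hP
  refine ⟨2 * C + 4, by linarith, ?_⟩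
  intro T T' hT hT' h1 h2 m c x hc
  have e : Vh T' c x - Vh T c x = ∑ i, ∑ j, c i * c j *
      (1 / (2 * Real.pi ^ 2) * (ZZ T' (x i - x j) - ZZ T (x i - x j))) := by
    unfold Vh ZZ
    rw [← Finset.sum_sub_distrib]
    refine Finset.sum_congr rfl fun i _ => ?_
    rw [← Finset.sum_sub_distrib]
    refine Finset.sum_congr rfl fun j _ => ?_
    ring
  rw [e]
  refine Pool.Agent.U688.MV4.sum_bound c _ _ (by linarith) hc ?_
  intro i j
  exact (fac_le _).trans (ZZ_cmp hC hT hT' h1 h2 _)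

/-- the size of the variance -/
theorem vh_le (hP : S_PRS) : ∃ C : ℝ, 0 < C ∧ ∀ T : ℝ, 16 ≤ T → ∀ (m : ℕ) (c x : Fin m → ℝ),
    (∑ i, |c i|) ≤ 1 → |Vh T c x| ≤ C * Real.log (Real.log T) := by
  obtain ⟨C, hC0, hC⟩ := hP
  obtain ⟨C', hC'0, hC'⟩ := Pool.Agent.U688.MV4.zeta_bound 1
  refine ⟨2 * C + C' + 1, by linarith, ?_⟩
  intro T hT m c x hc
  have hL : Real.exp 1 ≤ Real.log T := by
    have h16 : Real.log 16 ≤ Real.log T := Real.log_le_log (by norm_num) hT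
    have h16' : Real.log 16 = 4 * Real.log 2 := by
      rw [show (16 : ℝ) = 2 ^ 4 by norm_num, Real.log_pow]
      norm_num
    have := Real.log_two_gt_d9
    have := Real.exp_one_lt_d9
    linarith
  have hL0 : 0 < Real.log T := (Real.exp_pos 1).trans_le hL
  have hLL : 1 ≤ Real.log (Real.log T) := by
    rw [Real.le_log_iff_exp_le hL0]
    exact hL
  have hL1 : 1 ≤ Real.log T := by
    have := Real.add_one_le_exp (1 : ℝ)
    linarith
  have z0 : ZZ T 0 ≤ C' + Real.log (Real.log T) := by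
    have h := hC' (Real.log T) 0 hL1 (by norm_num)
    have e0 : Real.log (1 + |(0 : ℝ)| * Real.log T / (2 * Real.pi)) = 0 := by simp
    rw [e0, add_zero] at h
    have h' := (abs_le.1 h).2
    unfold ZZ
    linarith
  have hZ : ∀ s : ℝ, |ZZ T s| ≤ (2 * C + C' + 1) * Real.log (Real.log T) := by
    intro s
    have key : ∀ r : ℝ, 0 ≤ r → |ZZ T r| ≤ (2 * C + C' + 1) * Real.log (Real.log T) := by
      intro r hr
      have a1 : |PP T r - ZZ T r| ≤ C := hC T (by linarith) r hr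
      have a2 : |PP T 0 - ZZ T 0| ≤ C := hC T (by linarith) 0 le_rfl
      have a3 := abs_le.1 (PP_abs T r)
      have b1 := (abs_le.1 a1).1
      have b2 := (abs_le.1 a1).2
      have b3 := (abs_le.1 a2).1
      have b4 := (abs_le.1 a2).2
      have b5 := a3.1
      have b6 := a3.2
      have a4 : |ZZ T r| ≤ 2 * C + C' + Real.log (Real.log T) := by
        rw [abs_le]
        constructor <;> linarith
      have a5 : (2 * C + C') * 1 ≤ (2 * C + C') * Real.log (Real.log T) :=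
        mul_le_mul_of_nonneg_left hLL (by linarith)
      linarith
    rw [← ZZ_abs T]
    exact key _ (abs_nonneg s)
  unfold Vh
  refine Pool.Agent.U688.MV4.sum_bound c _ _ (by positivity) hc ?_
  intro i j
  exact (fac_le _).trans (hZ _)

end Pool.Agent.U388.MV6
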