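import Mathlib
import Pool.Agent.U251.MV4.A
import Pool.Agent.U398.MV.Stm6

/-!
# Project MV6, package ZF: the value at the zero against the values before the zero
(helper388; the three lemmas on `Mf` and the summation over the zeros are adapted from `Pool.Agent.U608.MV5.KM` of helper608)
-/

set_option autoImplicit false

namespace Pool.Agent.U388.MV6

open MeasureTheory Filter Topology Set Pool.Agent.U398.MV
open Pool.Agent.U251.MV4

noncomputable section

lemma Mf_up {s s' : ℝ} (hs : 0 < s) (h : s ≤ s') :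
    Mf s' - Mf s ≤ (s' - s) / (2 * Real.pi) * Real.log (s' / (2 * Real.pi)) := by
  have hp := Real.pi_pos
  have hu : 0 < s / (2 * Real.pi) := by positivity
  have hu' : 0 < s' / (2 * Real.pi) := div_pos (by linarith) (by positivity)
  have e : (s' - s) / (2 * Real.pi) = s' / (2 * Real.pi) - s / (2 * Real.pi) := by ring
  unfold Mf
  rw [e]
  set u := s / (2 * Real.pi)
  set u' := s' / (2 * Real.pi)
  have h1 : Real.log (u' / u) ≤ u' / u - 1 := Real.log_le_sub_one_of_pos (by positivity)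
  rw [Real.log_div hu'.ne' hu.ne'] at h1
  have h2 : u * (Real.log u' - Real.log u) ≤ u' - u := by
    calc u * (Real.log u' - Real.log u) ≤ u * (u' / u - 1) := mul_le_mul_of_nonneg_left h1 hu.le
      _ = u' - u := by field_simp
  nlinarith [h2]

lemma Mf_lo {s s' : ℝ} (hs : 2 * Real.pi ≤ s) (h : s ≤ s') : 0 ≤ Mf s' - Mf s := by
  have hp := Real.pi_pos
  have hs0 : 0 < s := by linarith
  have hu : 1 ≤ s / (2 * Real.pi) := by rwa [le_div_iff₀ (by positivity), one_mul]
  have hu' : 1 ≤ s' / (2 * Real.pi) := by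
    rw [le_div_iff₀ (by positivity), one_mul]; linarith
  have huu : s / (2 * Real.pi) ≤ s' / (2 * Real.pi) := by gcongr
  unfold Mf
  set u := s / (2 * Real.pi)
  set u' := s' / (2 * Real.pi)
  have hu0 : 0 < u := by linarith
  have hu0' : 0 < u' := by linarith
  have h1 : Real.log (u / u') ≤ u / u' - 1 := Real.log_le_sub_one_of_pos (by positivity)
  rw [Real.log_div hu0.ne' hu0'.ne'] at h1
  have h2 : u' * (Real.log u - Real.log u') ≤ u - u' := by
    calc u' * (Real.log u - Real.log u') ≤ u' * (u / u' - 1) :=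
          mul_le_mul_of_nonneg_left h1 hu0'.le
      _ = u - u' := by field_simp
  have h3 : 0 ≤ Real.log u := Real.log_nonneg hu
  nlinarith [mul_nonneg (sub_nonneg.2 huu) h3]

lemma Mf_inc {T s s' : ℝ} (hT : 10 ≤ T) (hs : 2 * Real.pi ≤ s) (h : s ≤ s') (h4 : s' ≤ 4 * T)
    (hw : s' - s ≤ 2 * Real.pi / Real.log T) : |Mf s' - Mf s| ≤ 1 := by
  have hp := Real.pi_pos
  have hp3 := Real.pi_gt_three
  have hL : 0 < Real.log T := Real.log_pos (by linarith)
  rw [abs_of_nonneg (Mf_lo hs h)]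
  refine (Mf_up (by linarith) h).trans ?_
  have h1 : Real.log (s' / (2 * Real.pi)) ≤ Real.log T := by
    apply Real.log_le_log (div_pos (by linarith) (by positivity))
    rw [div_le_iff₀ (by positivity)]
    nlinarith
  have h2 : (s' - s) / (2 * Real.pi) ≤ 1 / Real.log T := by
    rw [div_le_iff₀ (by positivity)]
    calc s' - s ≤ 2 * Real.pi / Real.log T := hw
      _ = 1 / Real.log T * (2 * Real.pi) := by ring
  have h3 : 0 ≤ Real.log (s' / (2 * Real.pi)) := by
    apply Real.log_nonneg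
    rw [le_div_iff₀ (by positivity), one_mul]
    linarith
  calc (s' - s) / (2 * Real.pi) * Real.log (s' / (2 * Real.pi)) ≤
        1 / Real.log T * Real.log T := mul_le_mul h2 h1 h3 (by positivity)
    _ = 1 := one_div_mul_cancel hL.ne'

/-- the comparison at one point, far shifts -/
lemma point {N : ℝ → ℕ} (hN : Monotone N) {T : ℝ} (hT : 40 ≤ T) (hw : 2 * Real.pi / Real.log T ≤ 7)
    {γ t y : ℝ} (h1 : γ - 2 * Real.pi / Real.log T ≤ t) (h2 : t ≤ γ) (hγ1 : T < γ)
    (hγ2 : γ ≤ 2 * T) (hy : |y| ≤ T / 4) :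
    |sg N (γ + y) - sg N (t + y)| ≤
      |sg N (t + (y + 2 * Real.pi / Real.log T)) - sg N (t + y)| + 2 := by
  have hp4 := Real.pi_lt_four
  have hw0 : 0 < 2 * Real.pi / Real.log T :=
    div_pos (by positivity) (Real.log_pos (by linarith))
  set w := 2 * Real.pi / Real.log T with hwdef
  obtain ⟨hy1, hy2⟩ := abs_le.1 hy
  have m1 : (N (t + y) : ℝ) ≤ N (γ + y) := by exact_mod_cast hN (by linarith)
  have m2 : (N (γ + y) : ℝ) ≤ N (t + (y + w)) := by exact_mod_cast hN (by linarith)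
  have i1 : |Mf (γ + y) - Mf (t + y)| ≤ 1 :=
    Mf_inc (T := T) (by linarith) (by linarith) (by linarith) (by linarith) (by linarith)
  have i2 : |Mf (t + (y + w)) - Mf (t + y)| ≤ 1 :=
    Mf_inc (T := T) (by linarith) (by linarith) (by linarith) (by linarith) (by linarith)
  have e1 : sg N (γ + y) - sg N (t + y) =
      ((N (γ + y) : ℝ) - N (t + y)) - (Mf (γ + y) - Mf (t + y)) := by unfold sg; ring
  have e2 : (N (t + (y + w)) : ℝ) - N (t + y) =
      (sg N (t + (y + w)) - sg N (t + y)) + (Mf (t + (y + w)) - Mf (t + y)) := by unfold sg; ring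
  have e3 := le_abs_self (sg N (t + (y + w)) - sg N (t + y))
  obtain ⟨a1, a2⟩ := abs_le.1 i1
  obtain ⟨b1, b2⟩ := abs_le.1 i2
  rw [e1, abs_le]
  have e4 := abs_nonneg (sg N (t + (y + w)) - sg N (t + y))
  constructor
  · linarith
  · linarith

/-- the cube of the logarithm -/
theorem log3 {T : ℝ} (hT : 10 ≤ T) : T / Real.log T ^ 3 ≤ T / 4 := by
  have h1 : (2 : ℝ) ≤ Real.log T := by
    have h2 : Real.log 10 ≤ Real.log T := Real.log_le_log (by norm_num) hT
    have h3 : (2 : ℝ) ≤ Real.log 10 := by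
      rw [Real.le_log_iff_exp_le (by norm_num)]
      have := Real.exp_one_lt_d9
      have h4 : Real.exp 2 = Real.exp 1 ^ 2 := by rw [← Real.exp_nat_mul]; norm_num
      rw [h4]
      have h5 : Real.exp 1 ^ 2 ≤ 3 ^ 2 := pow_le_pow_left₀ (Real.exp_pos 1).le (by linarith) 2
      linarith
    linarith
  have h2 : (4 : ℝ) ≤ Real.log T ^ 3 := by
    have : (2 : ℝ) ^ 3 ≤ Real.log T ^ 3 := pow_le_pow_left₀ (by norm_num) h1 3
    linarith
  exact div_le_div_of_nonneg_left (by linarith) (by norm_num) h2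

/-- Jensen with an additional one, all exponents -/
lemma jens1 {m : ℕ} (c y : Fin m → ℝ) (hc : (∑ i, |c i|) ≤ 1) (hy : ∀ i, 0 ≤ y i) (n : ℕ) :
    (∑ i, |c i| * y i) ^ n ≤ 1 + ∑ i, |c i| * y i ^ n := by
  have h0 : 0 ≤ ∑ i, |c i| * y i ^ n :=
    Finset.sum_nonneg fun i _ => mul_nonneg (abs_nonneg _) (pow_nonneg (hy i) _)
  rcases Nat.eq_zero_or_pos n with hn | hn
  · subst hn
    rw [pow_zero]
    linarith
  · have h1 := jensen (fun i => |c i|) y (by simpa using hc) hn
    have h2 : |∑ i, |c i| * y i| = ∑ i, |c i| * y i :=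
      abs_of_nonneg (Finset.sum_nonneg fun i _ => mul_nonneg (abs_nonneg _) (hy i))
    simp only [abs_abs] at h1
    rw [h2] at h1
    have h3 : ∑ i, |c i| * |y i| ^ n = ∑ i, |c i| * y i ^ n :=
      Finset.sum_congr rfl fun i _ => by rw [abs_of_nonneg (hy i)]
    rw [h3] at h1
    linarith

/-- the difference of the values of the linear form -/
lemma Gf_sub {N : ℝ → ℕ} (hN : Monotone N) {T : ℝ} (hT : 40 ≤ T) (hw : 2 * Real.pi / Real.log T ≤ 7)
    {m : ℕ} {c x : Fin m → ℝ} (hA : Adm T c x)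
    {γ t : ℝ} (h1 : γ - 2 * Real.pi / Real.log T ≤ t) (h2 : t ≤ γ) (hγ1 : T < γ)
    (hγ2 : γ ≤ 2 * T) :
    |Gf N c x γ - Gf N c x t| ≤ ∑ i, |c i| *
      (|sg N (t + (x i + 2 * Real.pi / Real.log T)) - sg N (t + x i)| + 2) := by
  have e : Gf N c x γ - Gf N c x t = ∑ i, c i * (sg N (γ + x i) - sg N (t + x i)) := by
    unfold Gf
    rw [← Finset.sum_sub_distrib]
    exact Finset.sum_congr rfl fun i _ => by ring
  rw [e]
  refine (Finset.abs_sum_le_sum_abs _ _).trans (Finset.sum_le_sum fun i _ => ?_)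
  rw [abs_mul]
  refine mul_le_mul_of_nonneg_left ?_ (abs_nonneg _)
  exact point hN hT hw h1 h2 hγ1 hγ2 ((hA.2.2 i).trans (log3 (by linarith)))

/-- **package ZF** -/
theorem t_ZF : J_ZF := by
  intro hPU N g C1 hC1 hcnt hmom hF p
  obtain ⟨Cu, Tu, hCu, hTu, hU⟩ := hPU N g C1 hcnt hmom
  obtain ⟨Ca, Ta, hCa, hTa, hMa⟩ := hF.1 (2 * p) (2 * Real.pi)
  have hpi := Real.pi_pos
  have hpi3 := Real.pi_gt_three
  have hpi4 : Real.pi < 3.15 := Real.pi_lt_d2
  have hl7 : 0 ≤ Real.log (1 + 2 * Real.pi) := Real.log_nonneg (by linarith)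
  obtain ⟨K1, hK1⟩ : ∃ K1 : ℝ, K1 = 12 + 2 * (2 ^ (4 * p) *
    (Ca * (1 + Real.log (1 + 2 * Real.pi)) ^ (2 * p) + 3 * 2 ^ (4 * p))) := ⟨_, rfl⟩
  have hK1pos : 0 < K1 := by rw [hK1]; positivity
  refine ⟨Cu * Real.sqrt K1, max 40 (max Tu Ta), by positivity, (by norm_num : (10:ℝ) ≤ 40).trans
    (le_max_left _ _), ?_⟩
  intro T hT m c x hAdm
  obtain ⟨hc1, hc0, hxT⟩ := id hAdm
  have hT40 : 40 ≤ T := (le_max_left _ _).trans hT
  have hTu' : Tu ≤ T := ((le_max_left _ _).trans (le_max_right _ _)).trans hT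
  have hTa' : Ta ≤ T := ((le_max_right _ _).trans (le_max_right _ _)).trans hT
  have hT0 : 0 ≤ T := by linarith
  have hL1 : 1 ≤ Real.log T := by
    rw [Real.le_log_iff_exp_le (by linarith)]
    linarith [Real.exp_one_lt_d9]
  have hL0 : 0 < Real.log T := by linarith
  have hw7 : 2 * Real.pi / Real.log T ≤ 7 := by
    rw [div_le_iff₀ hL0]
    nlinarith
  have hw2 : 2 * Real.pi / Real.log T ≤ 2 * Real.pi := by
    rw [div_le_iff₀ hL0]
    nlinarith
  have hw0 : 0 < 2 * Real.pi / Real.log T := by positivity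
  obtain ⟨w, hwd⟩ : ∃ w : ℝ, w = 2 * Real.pi / Real.log T := ⟨_, rfl⟩
  rw [← hwd] at hw7 hw2 hw0 ⊢
  have hwL : w * Real.log T = 2 * Real.pi := by rw [hwd]; field_simp
  -- the functions
  have hLB : ∀ i, LB fun t => sg N (t + (x i + w)) - sg N (t + x i) := fun i =>
    ((LB_sg hcnt.mono).shift (x i + w)).sub ((LB_sg hcnt.mono).shift (x i))
  have hLBn : ∀ (i : Fin m) (n : ℕ),
      LB fun t => |c i| * (|sg N (t + (x i + w)) - sg N (t + x i)| + 2) ^ n := fun i n =>
    (((hLB i).abs.add (LB.const 2)).pow n).cmul _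
  have hLBp : ∀ (i : Fin m),
      LB fun t => (sg N (t + (x i + w)) - sg N (t + x i)) ^ (2 * (2 * p)) := fun i => (hLB i).pow _
  set f : ℝ → ℝ := fun t => 1 + ∑ i, |c i| * (|sg N (t + (x i + w)) - sg N (t + x i)| + 2) ^ (2 * p)
    with hf
  have hfLB : LB f := (LB.const 1).add (LB.sum _ fun i _ => hLBn i (2 * p))
  have hf0 : ∀ t, 0 ≤ f t := fun t => by
    have : 0 ≤ ∑ i, |c i| * (|sg N (t + (x i + w)) - sg N (t + x i)| + 2) ^ (2 * p) :=
      Finset.sum_nonneg fun i _ => by positivity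
    simp only [hf]
    linarith
  -- the bound of the square
  set F : ℝ → ℝ := fun t => 4 + 2 * ∑ i, |c i| * (2 ^ (4 * p) *
    ((sg N (t + (x i + w)) - sg N (t + x i)) ^ (2 * (2 * p)) + 2 ^ (4 * p))) with hFd
  have hFLB : LB F := (LB.const 4).add ((LB.sum _ fun i _ =>
    ((((hLBp i).add (LB.const _)).cmul _).cmul _)).cmul 2)
  have hfF : ∀ t, f t ^ 2 ≤ F t := by
    intro t
    have h1 := jens1 c (fun i => (|sg N (t + (x i + w)) - sg N (t + x i)| + 2) ^ (2 * p)) hc1
      (fun i => by positivity) 2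
    have h2 : ∑ i, |c i| * ((|sg N (t + (x i + w)) - sg N (t + x i)| + 2) ^ (2 * p)) ^ 2 ≤
        ∑ i, |c i| * (2 ^ (4 * p) *
          ((sg N (t + (x i + w)) - sg N (t + x i)) ^ (2 * (2 * p)) + 2 ^ (4 * p))) := by
      refine Finset.sum_le_sum fun i _ => mul_le_mul_of_nonneg_left ?_ (abs_nonneg _)
      rw [← pow_mul, show 2 * p * 2 = 4 * p by ring]
      have h3 := add_pow_le (abs_nonneg (sg N (t + (x i + w)) - sg N (t + x i)))
        (show (0:ℝ) ≤ 2 by norm_num) (4 * p)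
      have h4 : |sg N (t + (x i + w)) - sg N (t + x i)| ^ (4 * p) =
          (sg N (t + (x i + w)) - sg N (t + x i)) ^ (2 * (2 * p)) := by
        rw [show 4 * p = 2 * (2 * p) by ring, pow_mul, sq_abs, ← pow_mul]
      rw [h4] at h3
      refine h3.trans (mul_le_mul_of_nonneg_right ?_ ?_)
      · exact pow_le_pow_right₀ (by norm_num) (by omega)
      · have h5 : 0 ≤ (sg N (t + (x i + w)) - sg N (t + x i)) ^ (2 * (2 * p)) := by
          rw [pow_mul]; positivity
        positivity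
    have h6 : f t ^ 2 ≤ 2 * (1 + (∑ i, |c i| *
        (|sg N (t + (x i + w)) - sg N (t + x i)| + 2) ^ (2 * p)) ^ 2) := by
      simp only [hf]
      nlinarith [sq_nonneg (1 - ∑ i, |c i| *
        (|sg N (t + (x i + w)) - sg N (t + x i)| + 2) ^ (2 * p))]
    refine h6.trans ?_
    simp only [hFd]
    linarith
  have h34 : 3 * T / 4 ≤ 3 * T := by linarith
  -- the moments
  have hmi : ∀ i, ∫ t in (3 * T / 4)..(3 * T),
      (sg N (t + (x i + w)) - sg N (t + x i)) ^ (2 * (2 * p)) ≤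
        Ca * T * (1 + Real.log (1 + 2 * Real.pi)) ^ (2 * p) := by
    intro i
    have e : |x i + w - x i| = w := by rw [add_sub_cancel_left, abs_of_pos hw0]
    have h1 := hMa T hTa' (x i + w) (x i) (by
      refine (abs_add_le _ _).trans ?_
      rw [abs_of_pos hw0]
      linarith [hxT i]) (by rw [e]; exact hw2)
    rw [e, hwL] at h1
    exact h1
  have hFint : ∫ t in (3 * T / 4)..(3 * T), F t ≤ K1 * T := by
    have hterm : ∀ i, ∫ t in (3 * T / 4)..(3 * T), |c i| * (2 ^ (4 * p) *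
        ((sg N (t + (x i + w)) - sg N (t + x i)) ^ (2 * (2 * p)) + 2 ^ (4 * p))) ≤
        |c i| * (2 ^ (4 * p) * (Ca * (1 + Real.log (1 + 2 * Real.pi)) ^ (2 * p) + 3 * 2 ^ (4 * p)) *
          T) := by
      intro i
      rw [intervalIntegral.integral_const_mul, intervalIntegral.integral_const_mul,
        intervalIntegral.integral_add ((hLBp i).ii _ _) ((LB.const _).ii _ _),
        intervalIntegral.integral_const, smul_eq_mul]
      refine mul_le_mul_of_nonneg_left ?_ (abs_nonneg _)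
      have h1 := hmi i
      have h2 : (3 * T - 3 * T / 4) * (2:ℝ) ^ (4 * p) ≤ 3 * 2 ^ (4 * p) * T := by
        have h3 : (0:ℝ) ≤ 2 ^ (4 * p) := by positivity
        nlinarith
      calc _ ≤ 2 ^ (4 * p) * (Ca * T * (1 + Real.log (1 + 2 * Real.pi)) ^ (2 * p) +
            3 * 2 ^ (4 * p) * T) := mul_le_mul_of_nonneg_left (add_le_add h1 h2) (by positivity)
        _ = _ := by ring
    have hi : ∀ i, LB fun t => |c i| * (2 ^ (4 * p) *
        ((sg N (t + (x i + w)) - sg N (t + x i)) ^ (2 * (2 * p)) + 2 ^ (4 * p))) := fun i =>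
      (((hLBp i).add (LB.const _)).cmul _).cmul _
    have e1 : ∫ t in (3 * T / 4)..(3 * T), F t = (3 * T - 3 * T / 4) * 4 + 2 *
        ∑ i, ∫ t in (3 * T / 4)..(3 * T), |c i| * (2 ^ (4 * p) *
          ((sg N (t + (x i + w)) - sg N (t + x i)) ^ (2 * (2 * p)) + 2 ^ (4 * p))) := by
      simp only [hFd]
      rw [intervalIntegral.integral_add ((LB.const _).ii _ _)
        (((LB.sum _ fun i _ => hi i).cmul 2).ii _ _), intervalIntegral.integral_const, smul_eq_mul,
        intervalIntegral.integral_const_mul, intervalIntegral.integral_finsetSum fun i _ =>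
          (hi i).ii _ _]
    rw [e1]
    have h2 := Finset.sum_le_sum fun i (_ : i ∈ Finset.univ) => hterm i
    rw [← Finset.sum_mul] at h2
    obtain ⟨D, hD⟩ : ∃ D : ℝ, D = 2 ^ (4 * p) *
      (Ca * (1 + Real.log (1 + 2 * Real.pi)) ^ (2 * p) + 3 * 2 ^ (4 * p)) := ⟨_, rfl⟩
    rw [← hD] at h2 hK1
    have hD0 : 0 ≤ D * T := by rw [hD]; positivity
    have h3 : (∑ i, |c i|) * (D * T) ≤ 1 * (D * T) := mul_le_mul_of_nonneg_right hc1 hD0
    rw [hK1]
    nlinarith
  have hf2 : LB fun t => f t ^ 2 := hfLB.pow 2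
  have hsq : Real.sqrt (∫ t in (3 * T / 4)..(3 * T), f t ^ 2) ≤ Real.sqrt K1 * Real.sqrt T := by
    rw [← Real.sqrt_mul hK1pos.le]
    exact Real.sqrt_le_sqrt ((intervalIntegral.integral_mono_on h34 (hf2.ii _ _) (hFLB.ii _ _)
      fun t _ => hfF t).trans hFint)
  have hPA := hU T hTu' f hf0 hfLB.meas.aestronglyMeasurable (by
    have := hf2.ii (3 * T / 4) (3 * T)
    rw [intervalIntegrable_iff_integrableOn_Icc_of_le h34] at this
    exact this)
  rw [← hwd] at hPA
  -- the comparison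
  have hsum : PA N g T w (fun n t => (Gf N c x (g n) - Gf N c x t) ^ (2 * p)) ≤
      PA N g T w (fun _ t => f t) := by
    unfold PA
    refine Finset.sum_le_sum fun n hn => mul_le_mul_of_nonneg_left ?_ (by positivity)
    rw [Finset.mem_Ioc] at hn
    have hn1 : 1 ≤ n := by omega
    have hg2 : g n ≤ 2 * T := (hcnt.gc n hn1 _).2 hn.2
    have hg1 : T < g n := by
      by_contra hcon
      have := (hcnt.gc n hn1 T).1 (not_lt.1 hcon)
      omega
    have hG : LB fun t => (Gf N c x (g n) - Gf N c x t) ^ (2 * p) :=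
      ((LB.const _).sub (LB_Gf hcnt.mono c x)).pow _
    refine intervalIntegral.integral_mono_on (by linarith) (hG.ii _ _) (hfLB.ii _ _) fun t ht => ?_
    have h1 := Gf_sub hcnt.mono hT40 (by rw [← hwd]; exact hw7) hAdm (γ := g n) (t := t)
      (by rw [← hwd]; exact ht.1) ht.2 hg1 hg2
    rw [← hwd] at h1
    calc (Gf N c x (g n) - Gf N c x t) ^ (2 * p) = |Gf N c x (g n) - Gf N c x t| ^ (2 * p) := by
          rw [pow_mul, pow_mul, sq_abs]
      _ ≤ (∑ i, |c i| * (|sg N (t + (x i + w)) - sg N (t + x i)| + 2)) ^ (2 * p) :=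
          pow_le_pow_left₀ (abs_nonneg _) h1 _
      _ ≤ f t := jens1 c _ hc1 (fun i => by positivity) (2 * p)
  refine hsum.trans (hPA.trans ?_)
  calc Cu * Real.log T * Real.sqrt T * Real.sqrt (∫ t in (3 * T / 4)..(3 * T), f t ^ 2) ≤
        Cu * Real.log T * Real.sqrt T * (Real.sqrt K1 * Real.sqrt T) :=
        mul_le_mul_of_nonneg_left hsq (by positivity)
    _ = Cu * Real.sqrt K1 * ((Real.sqrt T * Real.sqrt T) * Real.log T) := by ring
    _ = Cu * Real.sqrt K1 * (T * Real.log T) := by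
        rw [Real.mul_self_sqrt hT0]

end

end Pool.Agent.U388.MV6
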